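import Pool.Agent.Lib.MP_0c183c_co_P9S.CaseB

/-!
# Case (a): `R` bounded
-/

set_option autoImplicit false

namespace Pool.Agent.Lib.MP_0c183c_co_P9Star

open Module Pool.Agent.Lib.MP_0c183c_co_P9W Pool.Agent.Lib.MP_0c183c_co_P9G
  Pool.Agent.Lib.MP_0c183c_co_P9F Pool.Agent.Lib.P9RankMat
open Pool.Agent.Lib.MP_0c183c_co_P9A (V mem_V exists_mid stable_of_bounded eq_zero_of_bounded)
open Pool.Agent.Lib.MP_0c183c_co_P9T (off fam rowv Tan)

/-- CASE (a) -/
theorem caseA {W : World} (K : K1W W) (hb : ∃ C, ∀ N v, W.R N v ≤ C) : False := by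
  classical
  obtain ⟨n₀, c, h⟩ := stable_of_bounded W hb
  obtain ⟨X, hXc, hX⟩ := exists_mid ∅ {0} n₀ (by simp)
  obtain ⟨Y, hYc, hY⟩ := exists_mid {1} ∅ n₀ (by simp)
  have hX0 : ∀ x ∈ X, x < 0 := fun x hx => (hX x hx).2 0 (Finset.mem_singleton_self _)
  have hY1 : ∀ y ∈ Y, 1 < y := fun y hy => (hY y hy).1 1 (Finset.mem_singleton_self _)
  have h01 : (0 : ℚ) < 1 := one_pos
  set J := X ∪ Y with hJ
  obtain ⟨T, hT, hfar⟩ := exists_far W (insert 0 (insert 1 J)) _ subset_rfl
  have hXT : X ⊆ T := fun x hx => hT (by simp [hJ, hx])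
  have hYT : Y ⊆ T := fun x hx => hT (by simp [hJ, hx])
  have h0T : (0 : ℚ) ∈ T := hT (by simp)
  have h1T : (1 : ℚ) ∈ T := hT (by simp)
  have h0X : (0 : ℚ) ∉ X := fun h => lt_irrefl _ (hX0 0 h)
  have h1Y : (1 : ℚ) ∉ Y := fun h => lt_irrefl _ (hY1 1 h)
  obtain ⟨D, hD1, -, hD3, -⟩ := K J 0 1 T h01 (by
    intro q hq
    rcases Finset.mem_union.1 hq with hq | hq
    · exact Or.inl (hX0 q hq)
    · exact Or.inr (hY1 q hq)) hfar
  have hXY : ∀ x ∈ insert 0 X, ∀ y ∈ insert 1 Y, x < y := by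
    intro x hx y hy
    have h1 : x ≤ 0 := by
      rcases Finset.mem_insert.1 hx with hx | hx
      · exact hx.le
      · exact (hX0 x hx).le
    have h2 : 1 ≤ y := by
      rcases Finset.mem_insert.1 hy with hy | hy
      · exact hy.ge
      · exact (hY1 y hy).le
    exact lt_of_le_of_lt h1 (lt_of_lt_of_le h01 h2)
  have hbot : D = ⊥ := by
    rw [eq_bot_iff]
    intro δ hδ
    rw [Submodule.mem_bot]
    refine eq_zero_of_bounded W h hXT hYT h1T (fun x hx => (hX0 x hx).trans h01) hY1 hXc.ge hYc.ge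
      δ fun κ hκ α => ?_
    refine hD3 (V X) (V (insert 1 Y)) (fun β => mem_V.2 (Finset.mem_insert_self _ _))
      (fun x hx => Finset.mem_union_left _ (mem_V.1 hx)) (fun y hy => ?_) (fun x hx y hy => ?_) ?_
      κ hκ δ hδ α
    · rcases Finset.mem_insert.1 (mem_V.1 hy) with hy | hy
      · rw [hy]; exact Finset.mem_insert_self _ _
      · exact Finset.mem_insert_of_mem (Finset.mem_union_right _ hy)
    · exact (hXY _ (Finset.mem_insert_of_mem (mem_V.1 hx)) _ (mem_V.1 hy)).ne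
    · have e2 : V X ∪ V {0} = V (insert 0 X) := by
        ext x
        simp only [Finset.mem_union, mem_V, Finset.mem_insert, Finset.mem_singleton]
        tauto
      rw [e2, W.rk_eq (Finset.insert_subset h0T hXT) (Finset.insert_subset h1T hYT) hXY,
        W.rk_eq hXT (Finset.insert_subset h1T hYT)
          (fun x hx => hXY x (Finset.mem_insert_of_mem hx)), h, h]
      · rw [Finset.card_insert_of_notMem h1Y, hYc]; omega
      · exact hXc.ge
      · rw [Finset.card_insert_of_notMem h1Y, hYc]; omega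
      · rw [Finset.card_insert_of_notMem h0X, hXc]; omega
  rw [hbot, finrank_bot] at hD1
  omega

end Pool.Agent.Lib.MP_0c183c_co_P9Star
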