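import Pool.Agent.Lib.MP_0c183c_co_P9S.Defs
import Pool.Agent.Lib.MP_0c183c_co_P9S7.Two
import Pool.Agent.Lib.MP_0c183c_co_P9A.Growth
import Pool.Agent.Lib.MP_0c183c_co_P9F.Bridge
import Pool.Agent.Lib.MP_0c183c_co_P9G.Near

/-!
# Case (H): the tangent vector `lam_a ⊗ lam_b` (input of 7b)
-/

set_option autoImplicit false

namespace Pool.Agent.Lib.MP_0c183c_co_P9Star

open Module Pool.Agent.Lib.MP_0c183c_co_P9W Pool.Agent.Lib.MP_0c183c_co_P9G
  Pool.Agent.Lib.MP_0c183c_co_P9F Pool.Agent.Lib.P9RankMat Pool.Agent.Lib.MP_0c183c_co_P9S7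
open Pool.Agent.Lib.MP_0c183c_co_P9A (V exists_mid)
open Pool.Agent.Lib.MP_0c183c_co_P9T (off fam rowv Tan)

/-- A block with a right and a left kernel vector is a multiple of the tensor product of the two
covectors. -/
theorem tens_line {F : Type*} [Field F] [CharP F 2] (u v : Bool → F) (hu : u ≠ 0) (hv : v ≠ 0)
    (δ : Bool × Bool → F) (h1 : ∀ α, ∑ β, δ (α, β) * v β = 0)
    (h2 : ∀ β, ∑ α, u α * δ (α, β) = 0) :
    ∃ c : F, δ = c • (fun q : Bool × Bool => u (!q.1) * v (!q.2)) := by
  have neg : ∀ x : F, -x = x := fun x => CharTwo.neg_eq x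
  have h1' : ∀ α, δ (α, false) * v false = δ (α, true) * v true := by
    intro α
    have := h1 α
    rw [Fintype.sum_bool] at this
    have e : δ (α, false) * v false = -(δ (α, true) * v true) := by linear_combination this
    rw [e, neg]
  have h2' : ∀ β, u false * δ (false, β) = u true * δ (true, β) := by
    intro β
    have := h2 β
    rw [Fintype.sum_bool] at this
    have e : u false * δ (false, β) = -(u true * δ (true, β)) := by linear_combination this
    rw [e, neg]
  -- `δ (α, β) = s α * v (!β)`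
  obtain ⟨s, hs⟩ : ∃ s : Bool → F, ∀ α β, δ (α, β) = s α * v (!β) := by
    by_cases h0 : v false = 0
    · have h1 : v true ≠ 0 := by
        intro h
        apply hv
        funext j
        cases j
        · exact h0
        · exact h
      refine ⟨fun α => δ (α, false) / v true, fun α β => ?_⟩
      cases β
      · simp only [Bool.not_false]; field_simp
      · simp only [Bool.not_true, h0, mul_zero]
        have := h1' α
        rw [h0, mul_zero] at this
        exact (mul_eq_zero.1 this.symm).resolve_right h1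
    · refine ⟨fun α => δ (α, true) / v false, fun α β => ?_⟩
      cases β
      · simp only [Bool.not_false]
        rw [div_mul_eq_mul_div, ← h1' α, mul_div_assoc, div_self h0, mul_one]
      · simp only [Bool.not_true]; field_simp
  obtain ⟨j, hj⟩ := Function.ne_iff.1 hv
  have h3 : u false * s false = u true * s true := by
    have := h2' (!j)
    rw [hs, hs, Bool.not_not, ← mul_assoc, ← mul_assoc] at this
    exact mul_right_cancel₀ hj this
  obtain ⟨c, hc⟩ : ∃ c : F, ∀ α, s α = c * u (!α) := by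
    by_cases h0 : u false = 0
    · have h1 : u true ≠ 0 := by
        intro h
        apply hu
        funext j
        cases j
        · exact h0
        · exact h
      refine ⟨s false / u true, fun α => ?_⟩
      cases α
      · simp only [Bool.not_false]; field_simp
      · simp only [Bool.not_true, h0, mul_zero]
        rw [h0, zero_mul] at h3
        exact (mul_eq_zero.1 h3.symm).resolve_left h1
    · refine ⟨s true / u false, fun α => ?_⟩
      cases α
      · simp only [Bool.not_false]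
        rw [div_mul_eq_mul_div, mul_comm, ← h3, mul_comm, mul_div_assoc, div_self h0, mul_one]
      · simp only [Bool.not_true]; field_simp
  refine ⟨c, ?_⟩
  funext q
  rw [Pi.smul_apply, smul_eq_mul]
  have : δ q = δ (q.1, q.2) := rfl
  rw [this, hs, hc]
  ring

theorem charTwo (W : World) : CharP W.Ω 2 :=
  charP_of_injective_algebraMap (algebraMap (ZMod 2) W.Ω).injective 2

/-- (K_d) -/
theorem kd {W : World} (K : K1W W) {ρ N : ℕ} (H : TwoRank W ρ N)
    {S T Xa Xb J : Finset ℚ} {a b : ℚ} {ka kb : Vx → W.Ω} (hF : Far W T S) (ha : a ∈ S)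
    (hb : b ∈ S) (hab : a < b) (hadj : ∀ z ∈ S, ¬ (a < z ∧ z < b)) (hXa : Xa ⊆ S) (hXb : Xb ⊆ S)
    (hJ : J ⊆ S) (cXa : Xa.card = ρ + 1) (cXb : Xb.card = ρ + 1) (hAa : Around N Xa J)
    (hAb : Around N Xb J) (haX : a ∈ Xa) (hXa' : ∀ x ∈ Xa, x ≤ a) (hbX : b ∈ Xb)
    (hXb' : ∀ x ∈ Xb, b ≤ x) (hka : ka ∈ Rel W T Xa J) (hka0 : ka ≠ 0) (hkb : kb ∈ Rel W T Xb J)
    (hkb0 : kb ≠ 0) :
    fam (off (S.erase b)) (rowv (W.P T) b a (fun q => ka (a, !q.1) * kb (b, !q.2))) ∈
        Tan (ZMod 2) (fam (off (S.erase b)) (W.P T)) ∧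
      (Far W (T.erase b) (S.erase b) →
        fam (off (S.erase b)) (rowv (W.P T) b a (fun q => ka (a, !q.1) * kb (b, !q.2))) ∈
          Tan (ZMod 2) (fam (off (S.erase b)) (W.P (T.erase b)))) ∧
      beta (rkL W) = 0 := by
  classical
  have := charTwo W
  set J' := (S.erase a).erase b with hJ'
  have e1 : insert a (insert b J') = S := by
    rw [hJ', Finset.insert_erase (Finset.mem_erase.2 ⟨hab.ne', hb⟩), Finset.insert_erase ha]
  have e2 : insert a J' = S.erase b := by
    rw [hJ', Finset.erase_right_comm, Finset.insert_erase (Finset.mem_erase.2 ⟨hab.ne, ha⟩)]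
  have e3 : insert b J' = S.erase a := by
    rw [hJ', Finset.insert_erase (Finset.mem_erase.2 ⟨hab.ne', hb⟩)]
  have hJ'q : ∀ q ∈ J', q < a ∨ b < q := by
    intro q hq
    rw [hJ', Finset.mem_erase, Finset.mem_erase] at hq
    rcases lt_trichotomy q a with h | h | h
    · exact Or.inl h
    · exact absurd h hq.2.1
    · refine Or.inr (lt_of_le_of_ne ?_ (Ne.symm hq.1))
      by_contra hcon
      exact hadj q hq.2.2 ⟨h, not_le.1 hcon⟩
  obtain ⟨D, hD, hi, hii, hii', hit⟩ := K J' a b T hab hJ'q (by rw [e1]; exact hF)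
  have hST : S ⊆ T := hF.1
  -- the frame does not contain `a`, `b`
  have haJ : a ∉ J := by
    intro h
    rcases hAa.1 a h with h | h
    · exact lt_irrefl _ (h a haX)
    · exact lt_irrefl _ (h a haX)
  have hbJ : b ∉ J := by
    intro h
    rcases hAb.1 b h with h | h
    · exact lt_irrefl _ (h b hbX)
    · exact lt_irrefl _ (h b hbX)
  have hJJ : J ⊆ J' := by
    intro q hq
    rw [hJ', Finset.mem_erase, Finset.mem_erase]
    exact ⟨fun h => hbJ (h ▸ hq), fun h => haJ (h ▸ hq), hJ hq⟩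
  have haXb : a ∉ Xb := fun h => absurd (hXb' a h) (not_le.2 hab)
  have hbXa : b ∉ Xa := fun h => absurd (hXa' b h) (not_le.2 hab)
  have hdisj : ∀ {X : Finset ℚ}, Around N X J → ∀ x ∈ VV X, ∀ y ∈ VV J, x.1 ≠ y.1 := by
    intro X hX x hx y hy h
    rw [mem_VV] at hx hy
    rcases hX.1 _ hy with h' | h'
    · exact lt_irrefl _ (h ▸ h' _ hx)
    · exact lt_irrefl _ (h ▸ h' _ hx)
  have hVu : ∀ q : ℚ, VV J ∪ V {q} = VV (J ∪ {q}) := by
    intro q
    ext x
    rw [Finset.mem_union, mem_VV, mem_VV, Pool.Agent.Lib.MP_0c183c_co_P9A.mem_V, Finset.mem_union]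
  -- the two kernel conditions
  have hright : ∀ δ ∈ D, ∀ α, ∑ β, δ (α, β) * kb (b, β) = 0 := by
    intro δ hδ α
    refine hii (VV J) (VV Xb) (fun β => mem_VV.2 hbX) (fun x hx => hJJ (mem_VV.1 hx)) ?_
      (fun x hx y hy => (hdisj hAb y hy x hx).symm) ?_ kb ?_ δ hδ α
    · intro y hy
      rw [e3]
      exact Finset.mem_erase.2 ⟨fun h => haXb (h ▸ mem_VV.1 hy), hXb (mem_VV.1 hy)⟩
    · rw [hVu, W.rk_comm, W.rk_comm T (VV J)]
      have h1 := H T Xb J (hXb.trans hST) (hJ.trans hST) (by omega) hAb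
      have h2 := H T Xb (J ∪ {a}) (hXb.trans hST)
        (Finset.union_subset (hJ.trans hST) (Finset.singleton_subset_iff.2 (hST ha))) (by omega)
        (hAb.union fun j hj => by
          rw [Finset.mem_singleton.1 hj]
          exact Or.inl fun x hx => lt_of_lt_of_le hab (hXb' x hx))
      exact le_of_eq (h2.trans h1.symm)
    · intro x hx
      rw [← hkb.2 x hx]
      refine Finset.sum_congr rfl fun y _ => ?_
      rw [mul_comm, W.symm]
  have hleft : ∀ δ ∈ D, ∀ β, ∑ α, ka (a, α) * δ (α, β) = 0 := by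
    intro δ hδ β
    refine hii' (VV Xa) (VV J) (fun α => mem_VV.2 haX) ?_ (fun y hy => hJJ (mem_VV.1 hy))
      (fun x hx y hy => hdisj hAa x hx y hy) ?_ ka (fun y hy => hka.2 y hy) δ hδ β
    · intro x hx
      rw [e2]
      exact Finset.mem_erase.2 ⟨fun h => hbXa (h ▸ mem_VV.1 hx), hXa (mem_VV.1 hx)⟩
    · rw [hVu]
      have h1 := H T Xa J (hXa.trans hST) (hJ.trans hST) (by omega) hAa
      have h2 := H T Xa (J ∪ {b}) (hXa.trans hST)
        (Finset.union_subset (hJ.trans hST) (Finset.singleton_subset_iff.2 (hST hb))) (by omega)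
        (hAa.union fun j hj => by
          rw [Finset.mem_singleton.1 hj]
          exact Or.inr fun x hx => lt_of_le_of_lt (hXa' x hx) hab)
      exact le_of_eq (h2.trans h1.symm)
  set v0 : Bool × Bool → W.Ω := fun q => ka (a, !q.1) * kb (b, !q.2) with hv0
  have hu : (fun α => ka (a, α)) ≠ 0 := by
    intro h
    rcases Rel_comp_ne H (hXa.trans hST) (hJ.trans hST) cXa hAa hka hka0 haX with h1 | h1
    · exact h1 (congrFun h false)
    · exact h1 (congrFun h true)
  have hv : (fun β => kb (b, β)) ≠ 0 := by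
    intro h
    rcases Rel_comp_ne H (hXb.trans hST) (hJ.trans hST) cXb hAb hkb hkb0 hbX with h1 | h1
    · exact h1 (congrFun h false)
    · exact h1 (congrFun h true)
  have hline : ∀ δ ∈ D, ∃ c : W.Ω, δ = c • v0 := fun δ hδ =>
    tens_line (fun α => ka (a, α)) (fun β => kb (b, β)) hu hv δ (hright δ hδ) (hleft δ hδ)
  have hD1 : finrank W.Ω D ≤ 1 := by
    have h1 : D ≤ Submodule.span W.Ω {v0} := by
      intro δ hδ
      obtain ⟨c, rfl⟩ := hline δ hδ
      exact Submodule.smul_mem _ _ (Submodule.mem_span_singleton_self _)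
    refine (Submodule.finrank_mono h1).trans ?_
    have h2 := finrank_span_finset_le_card (R := W.Ω) ({v0} : Finset (Bool × Bool → W.Ω))
    rw [Finset.coe_singleton, Finset.card_singleton] at h2
    exact h2
  have hv0D : v0 ∈ D := by
    have h1 : 0 < finrank W.Ω D := by omega
    have := Module.nontrivial_of_finrank_pos h1
    obtain ⟨δ, hδ⟩ := exists_ne (0 : D)
    obtain ⟨c, hc⟩ := hline δ.1 δ.2
    have hc0 : c ≠ 0 := by
      rintro rfl
      rw [zero_smul] at hc
      exact hδ (Subtype.ext hc)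
    have h2 : v0 = c⁻¹ • δ.1 := by rw [hc, smul_smul, inv_mul_cancel₀ hc0, one_smul]
    rw [h2]
    exact Submodule.smul_mem _ _ δ.2
  rw [← e2]
  refine ⟨hi v0 hv0D, fun hfar => hit hD1 hfar v0 hv0D, by omega⟩

/-- In case (H) the number `β` is zero. -/
theorem beta_zero {W : World} (K : K1W W) {ρ N : ℕ} (H : TwoRank W ρ N) : beta (rkL W) = 0 := by
  classical
  obtain ⟨Xl, hXlc, hXl⟩ := exists_mid ∅ {0} ρ (by simp)
  obtain ⟨Xr, hXrc, hXr⟩ := exists_mid {1} ∅ ρ (by simp)
  have hXl0 : ∀ x ∈ Xl, x < 0 := fun x hx => (hXl x hx).2 0 (Finset.mem_singleton_self _)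
  have hXr1 : ∀ x ∈ Xr, 1 < x := fun x hx => (hXr x hx).1 1 (Finset.mem_singleton_self _)
  have h01 : (0 : ℚ) < 1 := one_pos
  set Xa := insert 0 Xl with hXa
  set Xb := insert 1 Xr with hXb
  have hXa0 : ∀ x ∈ Xa, x ≤ 0 := fun x hx => by
    rcases Finset.mem_insert.1 hx with hx | hx
    · exact hx.le
    · exact (hXl0 x hx).le
  have hXb1 : ∀ x ∈ Xb, 1 ≤ x := fun x hx => by
    rcases Finset.mem_insert.1 hx with hx | hx
    · exact hx.ge
    · exact (hXr1 x hx).le
  obtain ⟨JL, hJLc, hJL⟩ := exists_mid ∅ (Xa ∪ Xb) N (by simp)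
  obtain ⟨JR, hJRc, hJR⟩ := exists_mid (Xa ∪ Xb) ∅ N (by simp)
  set J := JL ∪ JR with hJ
  have hAr : ∀ X, X ⊆ Xa ∪ Xb → Around N X J := by
    intro X hX
    refine ⟨fun j hj => ?_, ?_, ?_⟩
    · rcases Finset.mem_union.1 hj with hj | hj
      · exact Or.inl fun x hx => (hJL j hj).2 x (hX hx)
      · exact Or.inr fun x hx => (hJR j hj).1 x (hX hx)
    · rw [← hJLc]
      refine Finset.card_le_card fun j hj => Finset.mem_filter.2
        ⟨Finset.mem_union_left _ hj, fun x hx => (hJL j hj).2 x (hX hx)⟩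
    · rw [← hJRc]
      refine Finset.card_le_card fun j hj => Finset.mem_filter.2
        ⟨Finset.mem_union_right _ hj, fun x hx => (hJR j hj).1 x (hX hx)⟩
  set S := Xa ∪ Xb ∪ J with hS
  obtain ⟨T, hT, hfar⟩ := exists_far W S S subset_rfl
  have hXaS : Xa ⊆ S := fun x hx => by simp [hS, hx]
  have hXbS : Xb ⊆ S := fun x hx => by simp [hS, hx]
  have hJS : J ⊆ S := fun x hx => by simp [hS, hx]
  have h0 : (0 : ℚ) ∈ Xa := Finset.mem_insert_self _ _
  have h1 : (1 : ℚ) ∈ Xb := Finset.mem_insert_self _ _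
  have cXa : Xa.card = ρ + 1 := by
    rw [hXa, Finset.card_insert_of_notMem fun h => lt_irrefl _ (hXl0 0 h), hXlc]
  have cXb : Xb.card = ρ + 1 := by
    rw [hXb, Finset.card_insert_of_notMem fun h => lt_irrefl _ (hXr1 1 h), hXrc]
  obtain ⟨ka, hka, hka0⟩ := exists_Rel H (hXaS.trans hT) (hJS.trans hT) cXa
    (hAr Xa Finset.subset_union_left)
  obtain ⟨kb, hkb, hkb0⟩ := exists_Rel H (hXbS.trans hT) (hJS.trans hT) cXb
    (hAr Xb Finset.subset_union_right)
  refine (kd K H hfar (hXaS h0) (hXbS h1) h01 ?_ hXaS hXbS hJS cXa cXb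
    (hAr Xa Finset.subset_union_left) (hAr Xb Finset.subset_union_right) h0 hXa0 h1 hXb1
    hka hka0 hkb hkb0).2.2
  rintro z hz ⟨hz0, hz1⟩
  rcases Finset.mem_union.1 hz with hz | hz
  · rcases Finset.mem_union.1 hz with hz | hz
    · exact absurd (hXa0 z hz) (not_le.2 hz0)
    · exact absurd (hXb1 z hz) (not_le.2 hz1)
  · rcases Finset.mem_union.1 hz with hz | hz
    · exact absurd ((hJL z hz).2 0 (Finset.mem_union_left _ h0)) (not_lt.2 hz0.le)
    · exact absurd ((hJR z hz).1 1 (Finset.mem_union_right _ h1)) (not_lt.2 hz1.le)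

/-- In case (H) the dimensions of the far tangent spaces grow at most linearly. -/
theorem tan_linear {W : World} (K : K1W W) {ρ N : ℕ} (H : TwoRank W ρ N) :
    ∃ c1 c2 : ℕ, ∀ I T : Finset ℚ, Far W T I →
      finrank W.Ω (Tan (ZMod 2) (fam (off I) (W.P T))) ≤ c1 * I.card + c2 := by
  obtain ⟨r, n1, α, hr, hrS, -⟩ := growth (psys_world W) (rkL_far W)
  rw [beta_zero K H] at hr
  have hb : ∀ n, r n ≤ α * n + ∑ m ∈ Finset.range (n1 + 1), r m := by
    intro n
    rcases le_or_gt n n1 with hn | hn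
    · have : r n ≤ ∑ m ∈ Finset.range (n1 + 1), r m :=
        Finset.single_le_sum (f := r) (fun _ _ => Nat.zero_le _)
          (Finset.mem_range.2 (Nat.lt_succ_of_le hn))
      exact this.trans (Nat.le_add_left _ _)
    · induction n, hn.le using Nat.le_induction with
      | base => exact absurd hn (lt_irrefl _)
      | succ n hn' ih =>
        rw [hr n hn', zero_mul, zero_add]
        rcases lt_or_eq_of_le hn' with h | h
        · have := ih h
          rw [Nat.mul_succ]
          omega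
        · subst h
          have : r n1 ≤ ∑ m ∈ Finset.range (n1 + 1), r m :=
            Finset.single_le_sum (f := r) (fun _ _ => Nat.zero_le _)
              (Finset.mem_range.2 (Nat.lt_succ_self _))
          rw [Nat.mul_succ]
          omega
  refine ⟨α, ∑ m ∈ Finset.range (n1 + 1), r m, fun I T hF => ?_⟩
  rw [finrank_Tan_far W hF, hrS]
  exact hb _

end Pool.Agent.Lib.MP_0c183c_co_P9Star
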