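import Pool.Agent.Lib.MP_0c183c_co_P9S.CaseB
import Pool.Agent.Lib.MP_0c183c_co_P9S.CaseD

/-!
# Case (c): slope one, full two-sided ranks
-/

set_option autoImplicit false

namespace Pool.Agent.Lib.MP_0c183c_co_P9Star

open Module Pool.Agent.Lib.MP_0c183c_co_P9W Pool.Agent.Lib.MP_0c183c_co_P9G
  Pool.Agent.Lib.MP_0c183c_co_P9F Pool.Agent.Lib.P9RankMat Pool.Agent.Lib.MP_0c183c_co_P9S7
open Pool.Agent.Lib.MP_0c183c_co_P9A (V mem_V exists_mid CaseC FarClass Cfg nmat exists_line eV)
open Pool.Agent.Lib.MP_0c183c_co_P9T (off fam rowv Tan Tan_comp)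
open Pool.Agent.Lib.P9Sec5 (rgt lft mem_rgt mem_lft case22 case1 nvec)

theorem farClass (W : World) : FarClass W (Far W) where
  sub := fun h => h.1
  anti := fun h h' => h.anti h'
  ext := fun I T₀ h => exists_far W I T₀ h
  conj := fun hf h h' => Far.conj_map hf h h'

theorem off_mono {I I' : Finset ℚ} (h : I ⊆ I') : off I ⊆ off I' :=
  fun _ hp => ⟨h hp.1, h hp.2.1, hp.2.2⟩

/-- restriction of tangent vectors to fewer elements -/
theorem tan_restrict {Ω : Type} [Field Ω] [Algebra (ZMod 2) Ω] {I I' : Finset ℚ} (h : I ⊆ I')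
    {M v : Vx → Vx → Ω} (hv : fam (off I') v ∈ Tan (ZMod 2) (fam (off I') M)) :
    fam (off I) v ∈ Tan (ZMod 2) (fam (off I) M) :=
  Tan_comp (ZMod 2) hv (fun p : off I => (⟨p.1, off_mono h p.2⟩ : off I'))

/-- the rank of the narrow rows as the dimension of their span -/
theorem finrank_nvec {W : World} (T I B : Finset ℚ) (a : ℚ) (w : ℚ → Bool → W.Ω) :
    rk (nmat (W.P T) w) B (V (rgt I a)) =
      finrank W.Ω (Submodule.span W.Ω (Set.range fun b : B => nvec (W.P T) I a b (w b))) := by
  rw [rk_eq_rank, ← Matrix.rank_submatrix _ (Equiv.refl B) (eV (rgt I a)),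
    Matrix.rank_eq_finrank_span_row]
  rfl

/-- CASE (c) -/
theorem caseC {W : World} (K : K1W W) {N₀ : ℕ} (hC : CaseC W N₀) : False := by
  classical
  have := charTwo W
  obtain ⟨r, n1, α, hr, hrS, -⟩ := growth (psys_world W) (rkL_far W)
  refine growth_absurd hr (C := 2 * ((beta (rkL W) + 1) * 0) + (beta (rkL W) + 1) * (4 * 0 + 1))
    (m := 0) fun n _ => ?_
  set I : Finset ℚ := (Finset.range n).image fun i : ℕ => (i : ℚ) with hI
  have hIc : I.card = n := by
    rw [hI, Finset.card_image_of_injective _ Nat.cast_injective, Finset.card_range]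
  -- the two outer sets
  obtain ⟨Y₀, hY₀c, hY₀⟩ := exists_mid I ∅ N₀ (by simp)
  have hIY : ∀ i ∈ I, ∀ y ∈ Y₀, i < y := fun i hi y hy => (hY₀ y hy).1 i hi
  obtain ⟨B, hB⟩ := exists_gapsets I Y₀ hIY fun a => (rgt I a).card + 2 * N₀
  obtain ⟨A₀, hA₀c, hA₀⟩ := exists_mid ∅ (I ∪ Y₀ ∪ I.biUnion B) (2 * (N₀ + 1)) (by simp)
  obtain ⟨T, hT, hfar⟩ := exists_far W (A₀ ∪ (I ∪ Y₀ ∪ I.biUnion B)) (A₀ ∪ (I ∪ Y₀ ∪ I.biUnion B))
    subset_rfl
  have hAI : ∀ x ∈ A₀, ∀ y ∈ I, x < y := fun x hx y hy =>
    (hA₀ x hx).2 y (Finset.mem_union_left _ (Finset.mem_union_left _ hy))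
  have hAY : ∀ x ∈ A₀, ∀ y ∈ Y₀, x < y := fun x hx y hy =>
    (hA₀ x hx).2 y (Finset.mem_union_left _ (Finset.mem_union_right _ hy))
  have hAB : ∀ a ∈ I, ∀ x ∈ A₀, ∀ y ∈ B a, x < y := fun a ha x hx y hy =>
    (hA₀ x hx).2 y (Finset.mem_union_right _ (Finset.mem_biUnion.2 ⟨a, ha, hy⟩))
  have sA : A₀ ⊆ A₀ ∪ (I ∪ Y₀ ∪ I.biUnion B) := Finset.subset_union_left
  have sI : I ⊆ A₀ ∪ (I ∪ Y₀ ∪ I.biUnion B) := fun x hx => by simp [hx]
  have sY : Y₀ ⊆ A₀ ∪ (I ∪ Y₀ ∪ I.biUnion B) := fun x hx => by simp [hx]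
  have sB : ∀ a ∈ I, B a ⊆ A₀ ∪ (I ∪ Y₀ ∪ I.biUnion B) := fun a ha x hx =>
    Finset.mem_union_right _ (Finset.mem_union_right _ (Finset.mem_biUnion.2 ⟨a, ha, hx⟩))
  have hYc : N₀ ≤ Y₀.card := hY₀c.ge
  have hAc : 2 * (Y₀.card + 1) ≤ A₀.card := by rw [hA₀c, hY₀c]
  have key := case1 I (Tan (ZMod 2) (fam (off I) (W.P T))) (beta (rkL W) + 1) 0 0 (by
    intro a ha _ _
    have ra : ∀ y ∈ rgt I a, y ∈ I := fun y hy => (mem_rgt.1 hy).1
    -- the data of one `b`
    have hD : ∀ b, ∃ (D : Submodule W.Ω (Bool × Bool → W.Ω)) (w : Bool → W.Ω), b ∈ B a →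
        w ≠ 0 ∧ beta (rkL W) + 1 ≤ finrank W.Ω D ∧
        (∀ δ ∈ D, ∀ i, δ (i, false) * w false + δ (i, true) * w true = 0) ∧
        (∀ δ ∈ D, fam (off I) (rowv (W.P T) b a δ) ∈ Tan (ZMod 2) (fam (off I) (W.P T))) ∧
        ∃ κ ∈ KerS (W.P T) (V (insert b Y₀)) (V A₀), ∀ s, κ (b, s) = w s := by
      intro b
      by_cases hb : b ∈ B a
      · obtain ⟨hb1, hb2, hb3⟩ := (hB a).2 b hb
        have hb3 := hb3 ha
        have hbY : b ∉ Y₀ := fun h => lt_irrefl _ (hb3 b h)
        set J : Finset ℚ := (A₀ ∪ I ∪ Y₀).erase a with hJ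
        have haA : a ∉ A₀ := fun h => lt_irrefl _ (hAI a h a ha)
        have haY : a ∉ Y₀ := fun h => lt_irrefl _ (hIY a ha a h)
        have e1 : insert a J = A₀ ∪ I ∪ Y₀ := by
          rw [hJ, Finset.insert_erase]
          simp [ha]
        have hJq : ∀ q ∈ J, q < a ∨ b < q := by
          intro q hq
          rw [hJ, Finset.mem_erase, Finset.mem_union, Finset.mem_union] at hq
          rcases hq.2 with (h | h) | h
          · exact Or.inl (hAI q h a ha)
          · exact erase_gap hb2 q (Finset.mem_erase.2 ⟨hq.1, h⟩)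
          · exact Or.inr (hb3 q h)
        obtain ⟨D, hD1, hD2, hD3, -⟩ := K J a b T hb1 hJq (hfar.anti (by
          rw [Finset.insert_comm, e1]
          exact Finset.insert_subset (sB a ha hb) (Finset.union_subset
            (Finset.union_subset sA sI) sY)))
        obtain ⟨κ, hκ, hκ0⟩ := exists_line hC (sA.trans hT) (sY.trans hT) (hT (sB a ha hb))
          (fun x hx => hAB a ha x hx b hb) hAY hbY hYc hAc
        refine ⟨D, fun s => κ (b, s), fun _ => ⟨hκ0, hD1, ?_, ?_, κ, hκ, fun s => rfl⟩⟩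
        · intro δ hδ i
          have h := hD3 (V A₀) (V (insert b Y₀)) (fun β => mem_V.2 (Finset.mem_insert_self _ _))
            (fun x hx => ?_) (fun y hy => ?_) (fun x hx y hy => ?_) ?_ κ (fun x hx => ?_) δ hδ i
          · rw [Fintype.sum_bool] at h
            rw [add_comm]
            exact h
          · have hx := mem_V.1 hx
            exact Finset.mem_erase.2 ⟨fun h => haA (h ▸ hx), by simp [hx]⟩
          · rcases Finset.mem_insert.1 (mem_V.1 hy) with hy | hy
            · rw [hy]; exact Finset.mem_insert_self _ _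
            · exact Finset.mem_insert_of_mem
                (Finset.mem_erase.2 ⟨fun h => haY (h ▸ hy), by simp [hy]⟩)
          · rcases Finset.mem_insert.1 (mem_V.1 hy) with hy | hy
            · rw [hy]; exact (hAB a ha _ (mem_V.1 hx) b hb).ne
            · exact (hAY _ (mem_V.1 hx) _ hy).ne
          · have e2 : V A₀ ∪ V {a} = V (insert a A₀) := by
              ext x
              simp only [Finset.mem_union, mem_V, Finset.mem_insert, Finset.mem_singleton]
              tauto
            have hbA : ∀ x ∈ A₀, ∀ y ∈ insert b Y₀, x < y := by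
              intro x hx y hy
              rcases Finset.mem_insert.1 hy with rfl | hy
              · exact hAB a ha x hx y hb
              · exact hAY x hx y hy
            have hba : ∀ x ∈ insert a A₀, ∀ y ∈ insert b Y₀, x < y := by
              intro x hx y hy
              rcases Finset.mem_insert.1 hx with rfl | hx
              · rcases Finset.mem_insert.1 hy with rfl | hy
                · exact hb1
                · exact hIY x ha y hy
              · exact hbA x hx y hy
            rw [e2, W.rk_eq (Finset.insert_subset (hT (sI ha)) (sA.trans hT))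
              (Finset.insert_subset (hT (sB a ha hb)) (sY.trans hT)) hba,
              W.rk_eq (sA.trans hT)
              (Finset.insert_subset (hT (sB a ha hb)) (sY.trans hT)) hbA,
              W.rankFun.eq_inf, W.rankFun.eq_inf]
            · rw [Finset.card_insert_of_notMem hbY, hA₀c, hY₀c]
            · rw [Finset.card_insert_of_notMem hbY, Finset.card_insert_of_notMem haA, hA₀c, hY₀c]
              omega
          · rw [← hκ.2 x hx]
            refine Finset.sum_congr rfl fun y _ => ?_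
            rw [mul_comm, W.symm]
        · intro δ hδ
          have h := hD2 δ hδ
          rw [e1] at h
          exact tan_restrict (fun x hx => by simp [hx]) h
      · exact ⟨⊥, 0, fun h => absurd h hb⟩
    choose D w hD using hD
    refine ⟨W.P T, B a, D, w, fun b hb => (hD b hb).1, fun b hb => (hD b hb).2.1,
      fun b hb => (hD b hb).2.2.1, fun b hb => (hD b hb).2.2.2.1, ?_⟩
    rw [← finrank_nvec, add_zero]
    have hcfg : Cfg W N₀ (Far W) T A₀ (B a) (rgt I a) Y₀ w :=
      { far := hfar.anti (Finset.union_subset (Finset.union_subset (Finset.union_subset sA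
          (sB a ha)) (fun y hy => sI (ra y hy))) sY)
        hAB := hAB a ha
        hAY := fun x hx y hy => hAI x hx y (ra y hy)
        hAZ := hAY
        hBY := fun x hx y hy => ((hB a).2 x hx).2.1 y hy
        hBZ := fun x hx y hy => ((hB a).2 x hx).2.2 ha y hy
        hYZ := fun x hx y hy => hIY x (ra x hx) y hy
        hY₀ := hYc
        hA := hAc
        hw0 := fun b hb => (hD b hb).1
        hw := fun b hb => (hD b hb).2.2.2.2 }
    exact hcfg.growth hC (farClass W) (by rw [(hB a).1, hY₀c]))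
  rw [finrank_Tan_far W (hfar.anti sI), hrS, hIc] at key
  calc (beta (rkL W) + 1) * (n * n) = (beta (rkL W) + 1) * n ^ 2 := by rw [sq]
    _ ≤ _ := key

end Pool.Agent.Lib.MP_0c183c_co_P9Star
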