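import Pool.Agent.Lib.MP_0c183c_co_P9S.K1w
import Pool.Agent.Lib.MP_0c183c_co_P9S.CaseA
import Pool.Agent.Lib.MP_0c183c_co_P9S.CaseC
import Pool.Agent.Lib.MP_0c183c_co_P9S7.Sec7
import Pool.Agent.Lib.MP_0c183c_p9.Az

/-!
# There is no world: parts (C) and (D) of the bounded order theorem
-/

set_option autoImplicit false

namespace Pool.Agent.Lib.MP_0c183c_co_P9Star

open Pool.Agent.Lib.MP_0c183c_co_P9W Pool.Agent.Lib.MP_0c183c_co_P9S7 Pool.Agent.MP_0c183c.P9
open Pool.Agent.Lib.MP_0c183c_co_P9A (CaseC)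

/-- CASE (d) -/
theorem caseD {W : World} (hunb : ∀ C, ∃ N v, C < W.R N v) {ρ : ℕ}
    (h : ∀ l v r : ℕ, 2 * v ≤ l → 2 * v ≤ r → W.R2 l v r = v + min v ρ) : False := by
  have K := k1w W
  have H := twoRank_of_R2 h
  have hA := az H hunb (tan_linear K H)
    (fun S T Xa Xb J a b ka kb hF ha hb hab hadj hXa hXb hJ cXa cXb hAa hAb haX hXa' hbX hXb' hka
      hka0 hkb hkb0 => (kd K H hF ha hb hab hadj hXa hXb hJ cXa cXb hAa hAb haX hXa' hbX hXb' hka
        hka0 hkb hkb0).1)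
    (fun S T Xa Xb J a b ka kb hF hFe ha hb hab hadj hXa hXb hJ cXa cXb hAa hAb haX hXa' hbX hXb'
      hka hka0 hkb hkb0 => (kd K H hF ha hb hab hadj hXa hXb hJ cXa cXb hAa hAb haX hXa' hbX hXb'
        hka hka0 hkb hkb0).2.1 hFe)
  exact sec7 H (N'' := 8 * ρ + 16) hA

/-- the right slope is one -/
theorem slope_one {W : World} (hunb : ∀ C, ∃ N v, C < W.R N v) {n₀ C₁ : ℕ}
    (h : ∀ N, n₀ ≤ N → RankFun.inf W.R N = 1 * N + C₁) : False := by
  rcases W.H_or_full hunb with hf | ⟨ρ, hρ⟩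
  · refine caseC (k1w W) (N₀ := n₀) ⟨fun N v hN hv => ?_, hf⟩
    rw [W.rankFun.eq_inf (N + 1) v hv, W.rankFun.eq_inf N v (by omega), h N hN,
      h (N + 1) (by omega)]
    omega
  · exact caseD hunb hρ

/-- There is no world. -/
theorem no_world (W : World) : False := by
  have K := k1w W
  by_cases hb : ∃ C, ∀ N v, W.R N v ≤ C
  · exact caseA K hb
  · push Not at hb
    obtain ⟨e₁, e₂, n₀, C₁, C₂, h1, h2, s1, s2, l1, l2, h0⟩ := W.rankFun.exists_slopes
    have ne1 : e₁ ≠ 0 := by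
      rintro rfl
      obtain ⟨N, v, hNv⟩ := hb C₁
      have d1 : W.R N v ≤ W.R (max N n₀) v := (W.rankFun.left v).monotone (le_max_left _ _)
      have d2 := W.rankFun.le_inf (max N n₀) v
      rw [s1 _ (le_max_right _ _)] at d2
      omega
    have ne2 : e₂ ≠ 0 := fun h => ne1 (h0.2 h)
    have c1 : e₁ = 1 ∨ e₁ = 2 := by omega
    have c2 : e₂ = 1 ∨ e₂ = 2 := by omega
    rcases c1 with rfl | rfl
    · exact slope_one hb s1
    · rcases c2 with rfl | rfl
      · refine slope_one (W := W.rev) (n₀ := n₀) (C₁ := C₂) (fun C => ?_) fun N hN => ?_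
        · obtain ⟨N, v, hNv⟩ := hb C
          exact ⟨v, N, by rw [W.rev_R]; exact hNv⟩
        · rw [← s2 N hN, RankFun.inf, RankFun.inf, W.rev_R]
      · refine caseB K (fun N => ⟨2 * N, ?_⟩) (fun v => ⟨2 * v, ?_⟩)
        · have e1 := l1 N
          have e2 := W.rankFun.le_left N (2 * N)
          rw [RankFun.inf] at e1
          omega
        · have e1 := l2 v
          have e2 := W.rankFun.le_right (2 * v) v
          rw [RankFun.inf] at e1
          omega

end Pool.Agent.Lib.MP_0c183c_co_P9Star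

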