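import Pool.Agent.Lib.MP_0c183c_co_P9F.Top
import Pool.Agent.Lib.MP_0c183c_co_P9T.Row
import Pool.Agent.Lib.MP_0c183c_co_P9A.Two

/-!
# The tangent data of a far block (the interface K1W of the star argument)
-/

set_option autoImplicit false

namespace Pool.Agent.Lib.MP_0c183c_co_P9Star

open Module Pool.Agent.Lib.MP_0c183c_co_P9W Pool.Agent.Lib.MP_0c183c_co_P9G
  Pool.Agent.Lib.MP_0c183c_co_P9F Pool.Agent.Lib.P9RankMat
open Pool.Agent.Lib.MP_0c183c_co_P9A (V)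
open Pool.Agent.Lib.MP_0c183c_co_P9T (off fam rowv Tan)

/-- The tangent directions at a block `a b` (`a < b`, nothing of `J` between) of a far array. -/
def K1W (W : World) : Prop :=
  ∀ (J : Finset ℚ) (a b : ℚ) (T : Finset ℚ), a < b → (∀ q ∈ J, q < a ∨ b < q) →
    Far W T (insert a (insert b J)) →
    ∃ D : Submodule W.Ω (Bool × Bool → W.Ω), beta (rkL W) + 1 ≤ finrank W.Ω D ∧
      (∀ δ ∈ D, fam (off (insert a J)) (rowv (W.P T) b a δ) ∈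
        Tan (ZMod 2) (fam (off (insert a J)) (W.P T))) ∧
      (∀ A C : Finset Vx, (∀ β, (b, β) ∈ C) → (∀ x ∈ A, x.1 ∈ J) → (∀ y ∈ C, y.1 ∈ insert b J) →
        (∀ x ∈ A, ∀ y ∈ C, x.1 ≠ y.1) →
        rk (W.mat T) (A ∪ V {a}) C ≤ rk (W.mat T) A C →
        ∀ κ : Vx → W.Ω, (∀ x ∈ A, ∑ y ∈ C, W.P T x y * κ y = 0) →
          ∀ δ ∈ D, ∀ α, ∑ β, δ (α, β) * κ (b, β) = 0) ∧
      (∀ A C : Finset Vx, (∀ α, (a, α) ∈ A) → (∀ x ∈ A, x.1 ∈ insert a J) → (∀ y ∈ C, y.1 ∈ J) →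
        (∀ x ∈ A, ∀ y ∈ C, x.1 ≠ y.1) →
        rk (W.mat T) A (C ∪ V {b}) ≤ rk (W.mat T) A C →
        ∀ l : Vx → W.Ω, (∀ y ∈ C, ∑ x ∈ A, l x * W.P T x y = 0) →
          ∀ δ ∈ D, ∀ β, ∑ α, l (a, α) * δ (α, β) = 0) ∧
      (finrank W.Ω D ≤ 1 → Far W (T.erase b) (insert a J) →
        ∀ δ ∈ D, fam (off (insert a J)) (rowv (W.P T) b a δ) ∈
          Tan (ZMod 2) (fam (off (insert a J)) (W.P (T.erase b))))

end Pool.Agent.Lib.MP_0c183c_co_P9Star
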