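import Mathlib

set_option autoImplicit false

/-!
# P9, assembly: the numerical contradiction of the counting argument
[helper29]
-/

namespace Pool.Agent.Lib.MP_0c183c_co_P9Star

/-- quadratic growth with leading coefficient `β / 2` contradicts a lower bound with `(β + 1) / 2` -/
theorem growth_contra (r : ℕ → ℕ) (β α n₁ c₁ c₂ : ℕ)
    (hr : ∀ n, n₁ ≤ n → r (n + 1) = r n + β * n + α)
    (h : ∀ n, (β + 1) * (n * (n - 1)) ≤ 2 * r n + c₁ * n + c₂) : False := by
  have key : ∀ k, 2 * r (n₁ + k) ≤ 2 * r n₁ + β * ((n₁ + k) * (n₁ + k - 1)) + 2 * α * (n₁ + k) := by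
    intro k
    induction k with
    | zero => simp only [Nat.add_zero]; exact le_trans (Nat.le_add_right _ _) (Nat.le_add_right _ _)
    | succ k ih =>
      have h1 := hr (n₁ + k) (Nat.le_add_right _ _)
      rw [show n₁ + (k + 1) = n₁ + k + 1 by ring, h1]
      set m := n₁ + k with hm
      have h2 : m + 1 - 1 = m := by omega
      rw [h2]
      rcases Nat.eq_zero_or_pos m with h0 | h0
      · rw [h0] at ih ⊢
        simp only [Nat.zero_sub, Nat.mul_zero, Nat.add_zero] at ih ⊢
        nlinarith
      · obtain ⟨m', hm'⟩ : ∃ m', m = m' + 1 := ⟨m - 1, by omega⟩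
        rw [hm'] at ih ⊢
        simp only [Nat.add_sub_cancel] at ih ⊢
        nlinarith
  set N := n₁ + (2 * α + c₁ + c₂ + 2 * r n₁ + 3) with hN
  have h1 := h N
  have h2 := key (2 * α + c₁ + c₂ + 2 * r n₁ + 3)
  rw [← hN] at h2
  have h3 : N * (N - 1) ≤ 2 * r n₁ + 2 * α * N + c₁ * N + c₂ := by
    have : (β + 1) * (N * (N - 1)) = β * (N * (N - 1)) + N * (N - 1) := by ring
    omega
  obtain ⟨M, hM⟩ : ∃ M, N = M + 1 := ⟨N - 1, by omega⟩
  rw [hM] at h3
  simp only [Nat.add_sub_cancel] at h3
  have h4 : 2 * α + c₁ + c₂ + 2 * r n₁ + 2 ≤ M := by omega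
  nlinarith

/-- number of elements of `I` to the right of `a` -/
def nr (I : Finset ℚ) (a : ℚ) : ℕ := (I.filter (fun x => a < x)).card

/-- number of elements of `I` to the left of `a` -/
def nl (I : Finset ℚ) (a : ℚ) : ℕ := (I.filter (fun x => x < a)).card

theorem sum_nr (I : Finset ℚ) : 2 * ∑ a ∈ I, nr I a = I.card * (I.card - 1) := by
  have h1 : ∑ a ∈ I, nr I a = ∑ a ∈ I, nl I a := by
    unfold nr nl
    simp only [Finset.card_filter]
    rw [Finset.sum_comm]
  have h2 : ∀ a ∈ I, nr I a + nl I a = I.card - 1 := by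
    intro a ha
    unfold nr nl
    rw [← Finset.card_union_of_disjoint]
    · rw [← Finset.card_erase_of_mem ha]
      congr 1
      ext x
      simp only [Finset.mem_union, Finset.mem_filter, Finset.mem_erase]
      constructor
      · rintro (⟨h, h'⟩ | ⟨h, h'⟩)
        · exact ⟨h'.ne', h⟩
        · exact ⟨h'.ne, h⟩
      · rintro ⟨h, h'⟩
        rcases lt_or_gt_of_ne h with h'' | h''
        · exact Or.inr ⟨h', h''⟩
        · exact Or.inl ⟨h', h''⟩
    · rw [Finset.disjoint_left]
      intro x hx hx'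
      exact lt_asymm (Finset.mem_filter.1 hx).2 (Finset.mem_filter.1 hx').2
  have h3 : ∑ a ∈ I, (nr I a + nl I a) = I.card * (I.card - 1) := by
    rw [Finset.sum_congr rfl h2, Finset.sum_const, smul_eq_mul]
  rw [Finset.sum_add_distrib, ← h1] at h3
  omega

theorem nl_injOn (I : Finset ℚ) : Set.InjOn (nl I) I := by
  intro a ha b hb hab
  by_contra hne
  wlog hlt : a < b generalizing a b
  · exact this hb ha hab.symm (Ne.symm hne) (lt_of_le_of_ne (not_lt.1 hlt) (Ne.symm hne))
  have : nl I a < nl I b := by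
    unfold nl
    apply Finset.card_lt_card
    rw [Finset.ssubset_iff_of_subset]
    · exact ⟨a, Finset.mem_filter.2 ⟨ha, hlt⟩, fun h => lt_irrefl _ (Finset.mem_filter.1 h).2⟩
    · intro x hx
      rw [Finset.mem_filter] at hx ⊢
      exact ⟨hx.1, hx.2.trans hlt⟩
  omega

/-- at most `p` elements have fewer than `p` elements on the left -/
theorem card_few (I : Finset ℚ) (p : ℕ) : (I.filter (fun a => nl I a < p)).card ≤ p := by
  have h1 : (I.filter (fun a => nl I a < p)).card ≤ (Finset.range p).card := by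
    apply Finset.card_le_card_of_injOn (nl I)
    · intro a ha
      exact Finset.mem_coe.2 (Finset.mem_range.2 (Finset.mem_filter.1 ha).2)
    · intro a ha b hb h
      exact nl_injOn I (Finset.mem_filter.1 ha).1 (Finset.mem_filter.1 hb).1 h
  rwa [Finset.card_range] at h1

/-- the sum of the lower bounds of the rows -/
theorem sum_rows (I : Finset ℚ) (g : ℚ → ℕ) (B C p q : ℕ)
    (h : ∀ a ∈ I, p ≤ nl I a → q ≤ nr I a → B * nr I a ≤ g a + C) :
    B * (I.card * (I.card - 1)) ≤ 2 * ∑ a ∈ I, g a + 2 * (C + B * q + B * p) * I.card := by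
  classical
  have h1 : ∀ a ∈ I, B * nr I a ≤ g a + C + B * q + (if nl I a < p then B * I.card else 0) := by
    intro a ha
    by_cases hp : nl I a < p
    · rw [if_pos hp]
      have : nr I a ≤ I.card := Finset.card_filter_le _ _
      have := Nat.mul_le_mul_left B this
      omega
    · rw [if_neg hp]
      by_cases hq : q ≤ nr I a
      · have := h a ha (not_lt.1 hp) hq
        omega
      · have := Nat.mul_le_mul_left B (not_le.1 hq).le
        omega
  have h2 := Finset.sum_le_sum h1
  rw [← Finset.mul_sum, Finset.sum_add_distrib, Finset.sum_add_distrib, Finset.sum_add_distrib,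
    Finset.sum_const, Finset.sum_const, ← Finset.sum_filter, Finset.sum_const, smul_eq_mul,
    smul_eq_mul, smul_eq_mul] at h2
  have h3 := Nat.mul_le_mul_right (B * I.card) (card_few I p)
  have h4 := sum_nr I
  have h5 : B * (2 * ∑ a ∈ I, nr I a) = B * (I.card * (I.card - 1)) := by rw [h4]
  nlinarith

end Pool.Agent.Lib.MP_0c183c_co_P9Star
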