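import Pool.Agent.Lib.MP_0c183c_co_P9S.Defs
import Pool.Agent.Lib.MP_0c183c_co_P9A.Cases
import Pool.Agent.Lib.MP_0c183c_co_P9A.Growth
import Pool.Agent.Lib.MP_0c183c_co_P9F.Bridge
import Pool.Agent.Lib.MP_0c183c_co_P9G.Near

/-!
# Case (2,2)
-/

set_option autoImplicit false

namespace Pool.Agent.Lib.MP_0c183c_co_P9Star

open Module Pool.Agent.Lib.MP_0c183c_co_P9W Pool.Agent.Lib.MP_0c183c_co_P9G
  Pool.Agent.Lib.MP_0c183c_co_P9F Pool.Agent.Lib.P9RankMat
open Pool.Agent.Lib.MP_0c183c_co_P9A (V exists_mid)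
open Pool.Agent.Lib.MP_0c183c_co_P9T (off fam rowv Tan)
open Pool.Agent.Lib.P9Sec5 (rgt lft mem_rgt mem_lft case22 case1)

/-- sets of prescribed size in the gaps right of the elements of `I` -/
theorem exists_gapsets (I R : Finset ℚ) (hR : ∀ i ∈ I, ∀ r ∈ R, i < r) (m : ℚ → ℕ) :
    ∃ B : ℚ → Finset ℚ, ∀ a, (B a).card = m a ∧ ∀ z ∈ B a, a < z ∧ (∀ y ∈ rgt I a, z < y) ∧
      (a ∈ I → ∀ r ∈ R, z < r) := by
  have h : ∀ a : ℚ, ∃ Z : Finset ℚ, Z.card = m a ∧ ∀ z ∈ Z, a < z ∧ (∀ y ∈ rgt I a, z < y) ∧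
      (a ∈ I → ∀ r ∈ R, z < r) := by
    intro a
    obtain ⟨Z, hZ1, hZ2⟩ := exists_mid {a} (rgt I a ∪ R.filter fun r => a < r) (m a) (by
      intro s hs t ht
      rw [Finset.mem_singleton.1 hs]
      rcases Finset.mem_union.1 ht with ht | ht
      · exact (mem_rgt.1 ht).2
      · exact (Finset.mem_filter.1 ht).2)
    refine ⟨Z, hZ1, fun z hz => ⟨(hZ2 z hz).1 a (Finset.mem_singleton_self a), fun y hy =>
      (hZ2 z hz).2 y (Finset.mem_union_left _ hy), fun ha r hr => ?_⟩⟩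
    exact (hZ2 z hz).2 r (Finset.mem_union_right _ (Finset.mem_filter.2 ⟨hr, hR a ha r hr⟩))
  choose B hB using h
  exact ⟨B, hB⟩

theorem erase_gap {I : Finset ℚ} {a b : ℚ} (hb : ∀ y ∈ rgt I a, b < y) :
    ∀ q ∈ I.erase a, q < a ∨ b < q := by
  intro q hq
  rw [Finset.mem_erase] at hq
  rcases lt_trichotomy q a with h | h | h
  · exact Or.inl h
  · exact absurd h hq.1
  · exact Or.inr (hb q (mem_rgt.2 ⟨hq.2, h⟩))

/-- CASE (b) -/
theorem caseB {W : World} (K : K1W W) (h1 : ∀ N, ∃ v, W.R N v = 2 * N)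
    (h2 : ∀ v, ∃ N, W.R N v = 2 * v) : False := by
  classical
  obtain ⟨r, n1, α, hr, hrS, -⟩ := growth (psys_world W) (rkL_far W)
  refine growth_absurd hr (C := 4 + (beta (rkL W) + 1) * (4 * 0 + 1)) (m := 0) fun n _ => ?_
  set I : Finset ℚ := (Finset.range n).image fun i : ℕ => (i : ℚ) with hI
  have hIc : I.card = n := by
    rw [hI, Finset.card_image_of_injective _ Nat.cast_injective, Finset.card_range]
  obtain ⟨B, hB⟩ := exists_gapsets I ∅ (by simp) fun a => (rgt I a).card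
  obtain ⟨T, hT, hfar⟩ := exists_far W (I ∪ I.biUnion B) (I ∪ I.biUnion B) subset_rfl
  have hIT : I ⊆ T := Finset.subset_union_left.trans hT
  have hBT : ∀ a ∈ I, B a ⊆ T := fun a ha =>
    ((Finset.subset_biUnion_of_mem B ha).trans Finset.subset_union_right).trans hT
  have key := case22 I (Tan (ZMod 2) (fam (off I) (W.P T))) (beta (rkL W) + 1) 0 (by
    intro a ha _ _
    have hD : ∀ b, ∃ D : Submodule W.Ω (Bool × Bool → W.Ω), b ∈ B a →
        beta (rkL W) + 1 ≤ finrank W.Ω D ∧ ∀ δ ∈ D, fam (off I) (rowv (W.P T) b a δ) ∈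
          Tan (ZMod 2) (fam (off I) (W.P T)) := by
      intro b
      by_cases hb : b ∈ B a
      · obtain ⟨hb1, hb2, -⟩ := (hB a).2 b hb
        obtain ⟨D, hD1, hD2, -⟩ := K (I.erase a) a b T hb1 (erase_gap hb2) (hfar.anti (by
          rw [Finset.insert_comm, Finset.insert_erase ha]
          exact Finset.insert_subset (Finset.mem_union_right _ (Finset.mem_biUnion.2 ⟨a, ha, hb⟩))
            Finset.subset_union_left))
        rw [Finset.insert_erase ha] at hD2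
        exact ⟨D, fun _ => ⟨hD1, hD2⟩⟩
      · exact ⟨⊥, fun h => absurd h hb⟩
    choose D hD using hD
    refine ⟨W.P T, B a, D, (hB a).1, fun b hb => (hD b hb).1, fun b hb => (hD b hb).2, ?_⟩
    exact Pool.Agent.Lib.MP_0c183c_co_P9A.rank_case22 W h1 h2 (hBT a ha)
      ((Finset.filter_subset _ _).trans hIT) (fun x hx y hy => ((hB a).2 x hx).2.1 y hy) (hB a).1)
  rw [finrank_Tan_far W (hfar.anti Finset.subset_union_left), hrS, hIc] at key
  calc (beta (rkL W) + 1) * (n * n) = (beta (rkL W) + 1) * n ^ 2 := by rw [sq]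
    _ ≤ _ := key

end Pool.Agent.Lib.MP_0c183c_co_P9Star
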