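import Pool.Agent.Lib.MP_0c183c_co_P9S.Defs
import Pool.Agent.Lib.MP_0c183c_co_P9T.K1main
import Pool.Agent.Lib.MP_0c183c_co_P9T.AbsSp
import Pool.Agent.Lib.MP_0c183c_co_P9G.Near

/-!
# K1W holds in every world
-/

set_option autoImplicit false

namespace Pool.Agent.Lib.MP_0c183c_co_P9Star

open Module Pool.Agent.Lib.MP_0c183c_co_P9W Pool.Agent.Lib.MP_0c183c_co_P9G
  Pool.Agent.Lib.MP_0c183c_co_P9F Pool.Agent.Lib.P9RankMat
open Pool.Agent.Lib.MP_0c183c_co_P9A (V mem_V)
open Pool.Agent.Lib.MP_0c183c_co_P9L (trd)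
open Pool.Agent.Lib.MP_0c183c_co_P9T (off fam rowv Tan Dab UU SS blk absdir absb setb dual Sp allp
  K1 mem_Dab mem_Tan_iff_Sp absdir_mem_Tan sp_absb_of_sp absb_setb_eps)

variable (W : World)

theorem SS_eq_ix {J : Finset ℚ} {a b : ℚ} :
    SS J a b = ix ((prs (insert a (insert b J))).erase s(a, b)) := by
  ext p
  rw [mem_ix, Finset.mem_erase, mem_prs, ne_eq, Sym2.eq_iff]
  constructor
  · rintro ⟨h1, h2⟩
    exact ⟨h2, h1⟩
  · rintro ⟨h1, h2⟩
    exact ⟨h2, h1⟩

theorem k1w : K1W W := by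
  intro J a b T hab hJ hT
  obtain ⟨TN, hJT, hno, hrest, hfa, -⟩ := near_given (psys_world W) (rkL_far W) J hab hJ
  set U : Finset ℚ := insert a (insert b J) with hU
  set X : Finset (Sym2 ℚ) := (prs U).erase s(a, b) with hX
  have haJ : a ∉ J := fun h => by
    rcases hJ a h with h1 | h1
    · exact lt_irrefl _ h1
    · exact lt_irrefl _ (hab.trans h1)
  have hbJ : b ∉ J := fun h => by
    rcases hJ b h with h1 | h1
    · exact lt_irrefl _ (hab.trans h1)
    · exact lt_irrefl _ h1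
  have haU : a ∈ U := Finset.mem_insert_self _ _
  have hbU : b ∈ U := Finset.mem_insert_of_mem (Finset.mem_insert_self _ _)
  have hJU : ∀ q ∈ J, q ∈ U := fun q hq => Finset.mem_insert_of_mem (Finset.mem_insert_of_mem hq)
  have hbN : b ∈ TN := hJT hbU
  -- far data
  have hXN : FarX W TN X :=
    ⟨(Finset.erase_subset _ _).trans (prs_mono hJT), hrest X subset_rfl⟩
  have hXT : FarX W T X := hT.farX.anti (Finset.erase_subset _ _)
  obtain ⟨σ, hσ⟩ := hXN.conj hXT
  have hS : ∀ p ∈ SS J a b, σ (W.P TN p.1 p.2) = W.P T p.1 p.2 := by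
    intro p hp
    rw [SS_eq_ix] at hp
    exact hσ _ _ hp
  have hUU : UU J a b = ix (prs U) := off_eq U
  have hNM : Sp (ZMod 2) (fam (UU J a b) (W.P TN)) (fam (UU J a b) (W.P T)) := by
    have h1 : Sp (ZMod 2) (fam (UU J a b) (W.P TN)) (fam (UU J a b) (W.P (TN ∪ T))) := by
      refine Sp_of_subset W Finset.subset_union_left ?_
      rw [hUU]
      exact ix_subset_allp (prs_mono hJT)
    exact h1.trans ((hT.mono (Finset.subset_union_right (s₁ := TN))).sp hT)
  have hsub : insert a J ⊆ TN.erase b := by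
    intro q hq
    rw [Finset.mem_erase]
    rcases Finset.mem_insert.1 hq with rfl | h
    · exact ⟨hab.ne, hJT haU⟩
    · exact ⟨fun h' => hbJ (h' ▸ h), hJT (hJU q h)⟩
  have hfar1 : Far W (TN.erase b) (insert a J) := ⟨hsub, hfa⟩
  have hfar2 : Far W TN (insert a J) := hfar1.mono (Finset.erase_subset _ _)
  obtain ⟨t, ht, habs⟩ := W.abs TN b hbN
  have hBN : off (insert a J) ⊆ allp TN := fun p hp =>
    ⟨Finset.mem_of_mem_erase (hsub hp.1), Finset.mem_of_mem_erase (hsub hp.2.1)⟩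
  have hfamN : fam (off (insert a J)) (W.P (TN.erase b)) =
      fam (off (insert a J)) (absb (W.P TN) b t) := by
    funext p
    exact habs _ _ (hsub p.2.1) (hsub p.2.2.1)
  have hTan : fam (off (insert a J)) (absdir (W.P TN) b) ∈
      Tan (ZMod 2) (fam (off (insert a J)) (W.P TN)) := by
    refine absdir_mem_Tan (W.P TN) TN b hbN _ hBN t ht ?_
    rw [← hfamN]
    exact hfar2.sp hfar1
  obtain ⟨D, h0, h1, h2, h3, h4⟩ := K1 σ (W.P TN) (W.P T) (W.symm TN) (W.symm T) J a b hab.ne haJ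
    hbJ hS hNM hTan
  have hrS : trd (ZMod 2) (Set.range (fam (SS J a b) (W.P TN))) = rkL W X := by
    rw [SS_eq_ix]
    exact hXN.2
  have hrU : trd (ZMod 2) (Set.range (fam (UU J a b) (W.P TN))) = rkW W TN (prs U) := by
    rw [hUU]; rfl
  have hstar : rkL W X + beta (rkL W) + 1 ≤ rkW W TN (prs U) :=
    nstar W J a b TN hab hno hJT haJ hbJ
  have hdim : beta (rkL W) + 1 ≤ finrank W.Ω D := by
    rw [hrS, hrU] at h0
    have h0' : rkW W TN (prs U) ≤ rkL W X + finrank W.Ω D := h0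
    omega
  have hdis : ∀ {A C : Finset Vx}, (∀ x ∈ A, x.1 ∈ U) → (∀ y ∈ C, y.1 ∈ U) →
      (∀ x ∈ A, ∀ y ∈ C, x.1 ≠ y.1) → rk (W.mat T) A C = rk (W.mat TN) A C := by
    intro A C hA hC hAC
    refine W.rk_indep hAC ?_ ?_
    · intro x hx
      rcases Finset.mem_union.1 hx with h | h
      · exact hT.1 (hA x h)
      · exact hT.1 (hC x h)
    · intro x hx
      rcases Finset.mem_union.1 hx with h | h
      · exact hJT (hA x h)
      · exact hJT (hC x h)
  refine ⟨D, hdim, ?_, ?_, ?_, ?_⟩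
  · intro δ hδ
    exact mem_Dab.1 (h1 hδ)
  · intro A C c1 c2 c3 c4 hrk κ hκ δ hδ α
    have hA : ∀ x ∈ A, x.1 ∈ U := fun x hx => hJU _ (c2 x hx)
    have hC : ∀ y ∈ C, y.1 ∈ U := fun y hy => Finset.mem_insert_of_mem (c3 y hy)
    have hAa : ∀ x ∈ A ∪ V {a}, x.1 ∈ U := by
      intro x hx
      rcases Finset.mem_union.1 hx with h | h
      · exact hA x h
      · have := mem_V.1 h
        rw [Finset.mem_singleton] at this
        rw [this]; exact haU
    have hdis' : ∀ x ∈ A ∪ V {a}, ∀ y ∈ C, x.1 ≠ y.1 := by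
      intro x hx y hy
      rcases Finset.mem_union.1 hx with h | h
      · exact c4 x h y hy
      · have := mem_V.1 h
        rw [Finset.mem_singleton] at this
        rw [this]
        rintro rfl
        rcases Finset.mem_insert.1 (c3 y hy) with h' | h'
        · exact hab.ne h'
        · exact haJ h'
    refine h2 A C c1 c2 c3 c4 ?_ κ hκ δ hδ α
    intro κ' hκ' α'
    rw [hdis hAa hC hdis', hdis hA hC c4] at hrk
    exact relation_extends_col (W.mat TN) Finset.subset_union_left hrk κ' hκ' (a, α')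
      (Finset.mem_union_right _ (mem_V.2 (Finset.mem_singleton_self a)))
  · intro A C c1 c2 c3 c4 hrk l hl δ hδ β
    have hA : ∀ x ∈ A, x.1 ∈ U := by
      intro x hx
      rcases Finset.mem_insert.1 (c2 x hx) with h | h
      · rw [h]; exact haU
      · exact hJU _ h
    have hC : ∀ y ∈ C, y.1 ∈ U := fun y hy => hJU _ (c3 y hy)
    have hCb : ∀ y ∈ C ∪ V {b}, y.1 ∈ U := by
      intro x hx
      rcases Finset.mem_union.1 hx with h | h
      · exact hC x h
      · have := mem_V.1 h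
        rw [Finset.mem_singleton] at this
        rw [this]; exact hbU
    have hdis' : ∀ x ∈ A, ∀ y ∈ C ∪ V {b}, x.1 ≠ y.1 := by
      intro x hx y hy
      rcases Finset.mem_union.1 hy with h | h
      · exact c4 x hx y h
      · have := mem_V.1 h
        rw [Finset.mem_singleton] at this
        rw [this]
        rintro h'
        rcases Finset.mem_insert.1 (c2 x hx) with h'' | h''
        · exact hab.ne (h''.symm.trans h')
        · exact hbJ (h' ▸ h'')
    refine h3 A C c1 c2 c3 c4 ?_ l hl δ hδ β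
    intro κ' hκ' β'
    rw [hdis hA hCb hdis', hdis hA hC c4] at hrk
    exact relation_extends (W.mat TN) Finset.subset_union_left hrk κ' hκ' (b, β')
      (Finset.mem_union_right _ (mem_V.2 (Finset.mem_singleton_self b)))
  · intro hD1 hfarb δ hδ
    have hle : trd (ZMod 2) (Set.range (fam (SS J a b) (W.P TN))) + finrank W.Ω D ≤
        trd (ZMod 2) (Set.range (fam (UU J a b) (W.P TN))) := by
      rw [hrS, hrU]
      omega
    have hS2 := h4 hle (TrivSqZeroExt W.Ω W.Ω) (TrivSqZeroExt.inr 1) δ hδ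
    have hbT : b ∈ T := hT.1 hbU
    obtain ⟨t₁, ht₁, habs₁⟩ := W.abs T b hbT
    have hsubT : insert a J ⊆ T.erase b := hfarb.1
    have hfamT : fam (off (insert a J)) (W.P (T.erase b)) =
        fam (off (insert a J)) (absb (W.P T) b t₁) := by
      funext p
      exact habs₁ _ _ (hsubT p.2.1) (hsubT p.2.2.1)
    have hmemU : ∀ q : ℚ, q ∈ insert a J → q ∈ U := by
      intro q hq
      rcases Finset.mem_insert.1 hq with h | h
      · rw [h]; exact haU
      · exact hJU q h
    have hneb : ∀ q : ℚ, q ∈ insert a J → q ≠ b := by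
      intro q hq
      rcases Finset.mem_insert.1 hq with h | h
      · rw [h]; exact hab.ne
      · exact fun h' => hbJ (h' ▸ h)
    have hsp := sp_absb_of_sp (W.P TN)
      (setb (W.P T) a b (fun q => algebraMap W.Ω (TrivSqZeroExt W.Ω W.Ω)
        (W.P T (a, q.1) (b, q.2)) + TrivSqZeroExt.inr 1 *
          algebraMap W.Ω (TrivSqZeroExt W.Ω W.Ω) (δ q)))
      TN b hbN (off (insert a J)) (UU J a b) hBN
      (fun p hp => ⟨hmemU _ hp.1, hmemU _ hp.2.1, hp.2.2⟩)
      (fun p hp β => ⟨hmemU _ hp.1, hbU, hneb _ hp.1⟩)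
      (fun p hp β => ⟨hbU, hmemU _ hp.2.1, (hneb _ hp.2.1).symm⟩)
      t ht hS2 (TrivSqZeroExt.inl t₁)
    rw [absb_setb_eps (W.P T) (W.symm T) J a b hab.ne hbJ t₁ δ, ← hfamN, ← hfamT] at hsp
    have hfin : t₁ • fam (off (insert a J)) (rowv (W.P T) b a δ) ∈
        Tan (ZMod 2) (fam (off (insert a J)) (W.P (T.erase b))) := by
      rw [mem_Tan_iff_Sp]
      exact (hfarb.sp hfar1).trans hsp
    have ht0 : t₁ ≠ 0 := by
      rintro rfl
      exact ht₁ isAlgebraic_zero
    have := Submodule.smul_mem _ t₁⁻¹ hfin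
    rwa [smul_smul, inv_mul_cancel₀ ht0, one_smul] at this

end Pool.Agent.Lib.MP_0c183c_co_P9Star
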